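import Pool.Agent.Y63.NV.Nfin2

open scoped Classical

namespace Pool.Agent.Results.MP_0c8ca5_al.AlternatingSums

open Pool.Agent.Y63.NV
open Pool.Agent.Y63.KR (IsPChain chainStabilizer alternatingSum)

/-- Let `G` be a proper normal subgroup of the finite group `Γ` with `Γ/G` a `p`-group. Then the
alternating sum form of Navarro's conjecture holds unconditionally: for every block `B` of `G` the
sum of `(-1)^|σ| |IBr_{Γ_σ}(B_σ)|` over the classes of chains `σ` of nontrivial `p`-subgroups of `Γ`
with `G Γ_σ = Γ` vanishes; and Navarro's equality for `(G, Γ)` follows from the equality for the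
pairs `(G ∩ Γ_σ, Γ_σ)`, `σ` nonempty. -/
theorem result (p : ℕ) [Fact p.Prime] (F : Type) [Field F] [IsAlgClosed F] [CharP F p]
    (red : integralClosure ℤ ℂ →+* F) (Γ : Type) [Group Γ] [Finite Γ] (G : Subgroup Γ) [G.Normal]
    (hG : G ≠ ⊤) (hp : IsPGroup p (Γ ⧸ G)) :
    (∀ B : (G → F) → F,
      alternatingSum p Γ (fun H => if G ⊔ H = ⊤ then (numIBrInd G H B : ℤ) else 0) = 0) ∧
    ((∀ σ : Set (Subgroup Γ), IsPChain p σ → σ.Nonempty → G ⊔ chainStabilizer σ = ⊤ →
      NavarroTheta p red (G.subgroupOf (chainStabilizer σ))) → NavarroTheta p red G) :=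
  navarro_alt red Γ G hG hp

end Pool.Agent.Results.MP_0c8ca5_al.AlternatingSums
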