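import Pool.Agent.Y63.NV.PeL

open scoped Classical

namespace Pool.Agent.Results.MP_0c8ca5_al.EquivalentToWeights

open Pool.Agent.Y63.NV

/-- Let `X` be a class of groups closed under isomorphisms, subgroups and quotients by normal
`p`-subgroups. The blockwise Alperin weight conjecture for the finite groups in `X` without normal
subgroups of index `p` and without non-trivial normal `p`-subgroups is equivalent to Navarro's
equality for all invariant blocks of all normal subgroups `G` of finite groups `Γ` such that `G`
contains a normal subgroup `N` of `Γ` in `X` for which `Γ/N` is a `p`-group. -/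
theorem result (p : ℕ) [Fact p.Prime] (F : Type) [Field F] [IsAlgClosed F] [CharP F p]
    (red : integralClosure ℤ ℂ →+* F) (X : ∀ (H : Type) [Group H], Prop) (hX : Closed p X) :
    (∀ (H : Type) [Group H] [Finite H], X H → Reduced p H →
      NavarroTheta p red (⊤ : Subgroup H)) ↔
    ∀ (Γ : Type) [Group Γ] [Finite Γ] (N G : Subgroup Γ) [N.Normal] [G.Normal], N ≤ G → X N →
      IsPGroup p (Γ ⧸ N) → NavarroTheta p red G :=
  block_strong red X hX

end Pool.Agent.Results.MP_0c8ca5_al.EquivalentToWeights
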